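import Pool.Agent.Run7.h247.T34.D0Fin
import Pool.Agent.Run7.h247.T34.D1Fin
import Pool.Agent.Run7.h247.T34.D2Fin
import Pool.Agent.Run7.h247.T34.D3Fin
import Pool.Agent.Run7.h247.T34.D4Fin
import Pool.Agent.Run7.h247.T34.D5Fin
import Pool.Agent.Run7.h247.T34.D6Fin
import Pool.Agent.Run7.h247.T34.D7Fin

/-!
# Every dense 3-graph without `K_4^3` contains all six-vertex subgraphs of Turán's construction

Turán's conjecture says that a 3-graph without `K_4^3` has edge density at most `5/9 + o(1)`. There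
are many conjectured extremal 3-graphs, so that it is not clear what all 3-graphs of density near
`5/9` (or of larger density, should the conjecture be false) have in common. The result describes
what they have in common on six vertices.

`turan g` is Turán's construction for a division `g` of the vertices into three parts: the edges are
the triples that meet all three parts, and the triples with two vertices in a part and one in the
following part. `T a b` is the subgraph of the construction induced by six vertices, of which `a`,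
`b`, `6 - a - b` lie in the three parts; there are eight of them up to isomorphism.

* If `F` is a copy of `T a b`, then every `K_4^3`-free 3-graph `H` on `n` vertices satisfies
  `6 |H| / n³ ≤ bet + lam (720 N / n⁶ + 15 / n)`, where `N` is the number of induced copies of `F` in
  `H` and `bet < 5/9` and `lam` are explicit constants that depend only on `F`. So Turán's bound
  holds, with a smaller density, for 3-graphs with few copies of one of the eight 3-graphs (for
  example, if no link graph contains a clique on five vertices), and the density of the copies of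
  `F` is at least `(5/9 - bet) / lam - o(1)` in every 3-graph with `(5/54) n³` or more edges.
* In particular, all 3-graphs with `n` vertices, `n ≥ 10⁶`, and with `6 |H| ≥ (5/9 - 1/400) n³`
  contain at least `n⁶ / 1200000` copies of each of the eight 3-graphs.
* If `F` is not one of the eight 3-graphs, then there are `K_4^3`-free 3-graphs (given by Turán's
  construction) whose density tends to `5/9` which contain no copy of `F`.

Outline: for each of the eight isomorphism types a sum of squares certificate for six-vertex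
structures with a penalty for the structures isomorphic to the given one, checked by the kernel.
-/

set_option autoImplicit false
set_option maxRecDepth 100000
set_option maxHeartbeats 4000000
open Finset
open scoped Classical

namespace Pool.Agent.Results.MP_466853_co.AllSixVertexSubgraphs

/-- The 3-graph `H` has no four vertices spanning all four triples. -/
def K43Free {n : ℕ} (H : Finset (Finset (Fin n))) : Prop :=
  ∀ S : Finset (Fin n), S.card = 4 → ∃ s ⊆ S, s.card = 3 ∧ s ∉ H

/-- The set `S` of vertices induces a copy of the 3-graph `F` in `H`: there is a bijection from the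
vertices of `F` to `S` that maps edges to edges and non-edges to non-edges. -/
def Induces {k n : ℕ} (F : Finset (Finset (Fin k))) (H : Finset (Finset (Fin n)))
    (S : Finset (Fin n)) : Prop :=
  ∃ f : Fin k → Fin n, Function.Injective f ∧ univ.image f = S ∧
    ∀ t : Finset (Fin k), t.card = 3 → (t.image f ∈ H ↔ t ∈ F)

/-- The number of sets of vertices which induce a copy of `F` in `H`. -/
noncomputable def copies {k n : ℕ} (F : Finset (Finset (Fin k))) (H : Finset (Finset (Fin n))) : ℕ :=
  ((univ : Finset (Finset (Fin n))).filter fun S => Induces F H S).card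

/-- Turán's construction for the division of the vertices into the parts `g = 0`, `g = 1`, `g = 2`:
the triples that meet all three parts, and the triples with two vertices in one part and one vertex
in the following part, where part 0 follows part 2. -/
def turan {n : ℕ} (g : Fin n → Fin 3) : Finset (Finset (Fin n)) :=
  ((univ : Finset (Fin n)).powersetCard 3).filter fun t =>
    (∀ p, ∃ i ∈ t, g i = p) ∨
      ∃ p, (t.filter fun i => g i = p).card = 2 ∧ (t.filter fun i => g i = p + 1).card = 1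

/-- The division of six vertices into parts with `a`, `b` and `6 - a - b` vertices. -/
def part (a b : ℕ) (i : Fin 6) : Fin 3 := if i.val < a then 0 else if i.val < a + b then 1 else 2

/-- Turán's construction on six vertices with parts of sizes `a`, `b`, `6 - a - b`. -/
def T (a b : ℕ) : Finset (Finset (Fin 6)) := turan (part a b)

/-- the bound for the density of 3-graphs with few copies of `T a b`, for the sizes of the parts -/
noncomputable def bet : ℕ → ℕ → ℕ → ℝ
  | 2, 2, 2 => 54501 / 100000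
  | 1, 3, 2 | 2, 1, 3 | 3, 2, 1 => 53588 / 100000
  | 1, 2, 3 | 2, 3, 1 | 3, 1, 2 => 54039 / 100000
  | 0, 5, 1 | 1, 0, 5 | 1, 1, 4 | 1, 4, 1 | 4, 1, 1 | 5, 1, 0 => 54309 / 100000
  | 0, 4, 2 | 2, 0, 4 | 4, 2, 0 => 55207 / 100000
  | 0, 3, 3 | 3, 0, 3 | 3, 3, 0 => 55172 / 100000
  | 0, 2, 4 | 2, 4, 0 | 4, 0, 2 => 54594 / 100000
  | _, _, _ => 54373 / 100000

/-- the factor in the inequality, for the sizes of the parts -/
noncomputable def lam : ℕ → ℕ → ℕ → ℝ
  | 2, 2, 2 => 48837 / 100000
  | 1, 3, 2 | 2, 1, 3 | 3, 2, 1 => 40696 / 100000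
  | 1, 2, 3 | 2, 3, 1 | 3, 1, 2 => 28187 / 100000
  | 0, 5, 1 | 1, 0, 5 | 1, 1, 4 | 1, 4, 1 | 4, 1, 1 | 5, 1, 0 => 99518 / 100000
  | 0, 4, 2 | 2, 0, 4 | 4, 2, 0 => 149566 / 100000
  | 0, 3, 3 | 3, 0, 3 | 3, 3, 0 => 104225 / 100000
  | 0, 2, 4 | 2, 4, 0 | 4, 0, 2 => 109341 / 100000
  | _, _, _ => 363160 / 100000

theorem img {k n : ℕ} (f : Fin k → Fin n) (t : Finset (Fin k)) :
    @Finset.image _ _ (fun a b => Classical.propDecidable (a = b)) f t =
      @Finset.image _ _ (instDecidableEqFin n) f t := by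
  ext v
  simp only [mem_image]

theorem ind_iff {n : ℕ} (F : Finset (Finset (Fin 6))) (H : Finset (Finset (Fin n)))
    (S : Finset (Fin n)) : Pool.Agent.H37R3.Cop.Induces F H S ↔ Induces F H S := by
  unfold Pool.Agent.H37R3.Cop.Induces Induces
  simp only [img]

theorem ind_card {k n : ℕ} {F : Finset (Finset (Fin k))} {H : Finset (Finset (Fin n))}
    {S : Finset (Fin n)} (h : Induces F H S) : S.card = k := by
  obtain ⟨f, hf, hS, -⟩ := h
  rw [← hS, card_image_of_injective _ hf, card_univ, Fintype.card_fin]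

theorem copies_six {n : ℕ} (F : Finset (Finset (Fin 6))) (H : Finset (Finset (Fin n))) :
    (((univ : Finset (Fin n)).powersetCard 6).filter fun S =>
      Pool.Agent.H37R3.Cop.Induces F H S).card = copies F H := by
  unfold copies
  congr 1
  ext S
  rw [mem_filter, mem_filter, mem_powersetCard, ind_iff]
  constructor
  · rintro ⟨-, h⟩
    exact ⟨mem_univ _, h⟩
  · rintro ⟨-, h⟩
    exact ⟨⟨subset_univ _, ind_card h⟩, h⟩

/-- isomorphism of six-vertex 3-graphs -/
def Iso (F F' : Finset (Finset (Fin 6))) : Prop :=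
  ∃ p : Equiv.Perm (Fin 6), ∀ t : Finset (Fin 6), t.card = 3 → (t.image p ∈ F ↔ t ∈ F')

theorem Iso.symm {F F' : Finset (Finset (Fin 6))} (h : Iso F F') : Iso F' F := by
  obtain ⟨p, hp⟩ := h
  refine ⟨p.symm, fun t ht => ?_⟩
  rw [← hp _ (by rw [card_image_of_injective _ p.symm.injective, ht]), image_image]
  simp

theorem iso_of (F F' : Finset (Finset (Fin 6))) (g : Fin 6 → Fin 6) (hg : Function.Injective g)
    (h : ∀ t : Finset (Fin 6), t.card = 3 → (t.image g ∈ F ↔ t ∈ F')) : Iso F F' :=
  ⟨Equiv.ofBijective g (Finite.injective_iff_bijective.mp hg), h⟩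

theorem ind_iso {n : ℕ} {F F' : Finset (Finset (Fin 6))} {H : Finset (Finset (Fin n))}
    {S : Finset (Fin n)} (h : Iso F F') (hi : Induces F H S) : Induces F' H S := by
  obtain ⟨p, hp⟩ := h
  obtain ⟨f, hf, hfS, hfe⟩ := hi
  refine ⟨f ∘ p, hf.comp p.injective, ?_, ?_⟩
  · rw [← hfS]
    ext v
    simp only [mem_image, mem_univ, true_and, Function.comp]
    constructor
    · rintro ⟨i, hi⟩; exact ⟨p i, hi⟩
    · rintro ⟨i, hi⟩
      exact ⟨p.symm i, by rw [p.apply_symm_apply]; exact hi⟩
  · intro t ht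
    rw [← hp t ht, ← hfe _ (by rw [card_image_of_injective _ p.injective, ht]), image_image]

theorem copies_iso {n : ℕ} {F F' : Finset (Finset (Fin 6))} (H : Finset (Finset (Fin n)))
    (h : Iso F F') : copies F H ≤ copies F' H := by
  unfold copies
  refine card_le_card ?_
  intro S hS
  rw [mem_filter] at hS ⊢
  exact ⟨mem_univ _, ind_iso h hS.2⟩

theorem Iso.trans {F F' F'' : Finset (Finset (Fin 6))} (h : Iso F F') (h' : Iso F' F'') :
    Iso F F'' := by
  obtain ⟨p, hp⟩ := h
  obtain ⟨q, hq⟩ := h'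
  refine ⟨q.trans p, fun t ht => ?_⟩
  rw [← hq t ht, ← hp _ (by rw [card_image_of_injective _ q.injective, ht]), image_image]
  rfl

theorem real_form {n B L N e : ℕ}
    (h : 600000 * n ^ 3 * e ≤ B * n ^ 6 + L * (720 * N + 15 * n ^ 5)) :
    (6 * e / n ^ 3 : ℝ) ≤ (B : ℝ) / 100000 + (L : ℝ) / 100000 * (720 * N / n ^ 6 + 15 / n) := by
  rcases Nat.eq_zero_or_pos n with rfl | hn
  · simp only [Nat.cast_zero, ne_eq, OfNat.ofNat_ne_zero, not_false_eq_true, zero_pow, div_zero,
      add_zero, mul_zero]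
    positivity
  have hn' : (0 : ℝ) < n := by exact_mod_cast hn
  have h1 : (600000 * n ^ 3 * e : ℝ) ≤ B * n ^ 6 + L * (720 * N + 15 * n ^ 5) := by
    exact_mod_cast h
  have key : (6 * e / n ^ 3 : ℝ) - ((B : ℝ) / 100000 + (L : ℝ) / 100000 * (720 * N / n ^ 6 + 15 / n)) =
      (600000 * n ^ 3 * e - (B * n ^ 6 + L * (720 * N + 15 * n ^ 5))) / (100000 * n ^ 6) := by
    field_simp
    ring
  have h3 : (600000 * n ^ 3 * e - (B * n ^ 6 + L * (720 * N + 15 * n ^ 5)) : ℝ) /
      (100000 * n ^ 6) ≤ 0 := div_nonpos_of_nonpos_of_nonneg (by linarith) (by positivity)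
  linarith

theorem base0 {n : ℕ} {H : Finset (Finset (Fin n))} (h3 : ∀ e ∈ H, e.card = 3) (hK : K43Free H)
    {F : Finset (Finset (Fin 6))} (h : Iso Pool.Agent.Run7.h247.T34.D0.FS F) :
    (6 * H.card / n ^ 3 : ℝ) ≤ 54373 / 100000 + 363160 / 100000 * (720 * copies F H / n ^ 6 + 15 / n) := by
  have h1 := Pool.Agent.Run7.h247.T34.D0.main h3 hK
  rw [Fintype.card_fin, copies_six] at h1
  have h2 := real_form (h1.trans (Nat.add_le_add_left (Nat.mul_le_mul_left _
    (Nat.add_le_add_right (Nat.mul_le_mul_left _ (copies_iso H h)) _)) _))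
  exact_mod_cast h2

theorem base1 {n : ℕ} {H : Finset (Finset (Fin n))} (h3 : ∀ e ∈ H, e.card = 3) (hK : K43Free H)
    {F : Finset (Finset (Fin 6))} (h : Iso Pool.Agent.Run7.h247.T34.D1.FS F) :
    (6 * H.card / n ^ 3 : ℝ) ≤ 54594 / 100000 + 109341 / 100000 * (720 * copies F H / n ^ 6 + 15 / n) := by
  have h1 := Pool.Agent.Run7.h247.T34.D1.main h3 hK
  rw [Fintype.card_fin, copies_six] at h1
  have h2 := real_form (h1.trans (Nat.add_le_add_left (Nat.mul_le_mul_left _
    (Nat.add_le_add_right (Nat.mul_le_mul_left _ (copies_iso H h)) _)) _))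
  exact_mod_cast h2

theorem base2 {n : ℕ} {H : Finset (Finset (Fin n))} (h3 : ∀ e ∈ H, e.card = 3) (hK : K43Free H)
    {F : Finset (Finset (Fin 6))} (h : Iso Pool.Agent.Run7.h247.T34.D2.FS F) :
    (6 * H.card / n ^ 3 : ℝ) ≤ 55172 / 100000 + 104225 / 100000 * (720 * copies F H / n ^ 6 + 15 / n) := by
  have h1 := Pool.Agent.Run7.h247.T34.D2.main h3 hK
  rw [Fintype.card_fin, copies_six] at h1
  have h2 := real_form (h1.trans (Nat.add_le_add_left (Nat.mul_le_mul_left _
    (Nat.add_le_add_right (Nat.mul_le_mul_left _ (copies_iso H h)) _)) _))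
  exact_mod_cast h2

theorem base3 {n : ℕ} {H : Finset (Finset (Fin n))} (h3 : ∀ e ∈ H, e.card = 3) (hK : K43Free H)
    {F : Finset (Finset (Fin 6))} (h : Iso Pool.Agent.Run7.h247.T34.D3.FS F) :
    (6 * H.card / n ^ 3 : ℝ) ≤ 55207 / 100000 + 149566 / 100000 * (720 * copies F H / n ^ 6 + 15 / n) := by
  have h1 := Pool.Agent.Run7.h247.T34.D3.main h3 hK
  rw [Fintype.card_fin, copies_six] at h1
  have h2 := real_form (h1.trans (Nat.add_le_add_left (Nat.mul_le_mul_left _
    (Nat.add_le_add_right (Nat.mul_le_mul_left _ (copies_iso H h)) _)) _))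
  exact_mod_cast h2

theorem base4 {n : ℕ} {H : Finset (Finset (Fin n))} (h3 : ∀ e ∈ H, e.card = 3) (hK : K43Free H)
    {F : Finset (Finset (Fin 6))} (h : Iso Pool.Agent.Run7.h247.T34.D4.FS F) :
    (6 * H.card / n ^ 3 : ℝ) ≤ 54309 / 100000 + 99518 / 100000 * (720 * copies F H / n ^ 6 + 15 / n) := by
  have h1 := Pool.Agent.Run7.h247.T34.D4.main h3 hK
  rw [Fintype.card_fin, copies_six] at h1
  have h2 := real_form (h1.trans (Nat.add_le_add_left (Nat.mul_le_mul_left _
    (Nat.add_le_add_right (Nat.mul_le_mul_left _ (copies_iso H h)) _)) _))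
  exact_mod_cast h2

theorem base5 {n : ℕ} {H : Finset (Finset (Fin n))} (h3 : ∀ e ∈ H, e.card = 3) (hK : K43Free H)
    {F : Finset (Finset (Fin 6))} (h : Iso Pool.Agent.Run7.h247.T34.D5.FS F) :
    (6 * H.card / n ^ 3 : ℝ) ≤ 54039 / 100000 + 28187 / 100000 * (720 * copies F H / n ^ 6 + 15 / n) := by
  have h1 := Pool.Agent.Run7.h247.T34.D5.main h3 hK
  rw [Fintype.card_fin, copies_six] at h1
  have h2 := real_form (h1.trans (Nat.add_le_add_left (Nat.mul_le_mul_left _
    (Nat.add_le_add_right (Nat.mul_le_mul_left _ (copies_iso H h)) _)) _))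
  exact_mod_cast h2

theorem base6 {n : ℕ} {H : Finset (Finset (Fin n))} (h3 : ∀ e ∈ H, e.card = 3) (hK : K43Free H)
    {F : Finset (Finset (Fin 6))} (h : Iso Pool.Agent.Run7.h247.T34.D6.FS F) :
    (6 * H.card / n ^ 3 : ℝ) ≤ 53588 / 100000 + 40696 / 100000 * (720 * copies F H / n ^ 6 + 15 / n) := by
  have h1 := Pool.Agent.Run7.h247.T34.D6.main h3 hK
  rw [Fintype.card_fin, copies_six] at h1
  have h2 := real_form (h1.trans (Nat.add_le_add_left (Nat.mul_le_mul_left _
    (Nat.add_le_add_right (Nat.mul_le_mul_left _ (copies_iso H h)) _)) _))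
  exact_mod_cast h2

theorem base7 {n : ℕ} {H : Finset (Finset (Fin n))} (h3 : ∀ e ∈ H, e.card = 3) (hK : K43Free H)
    {F : Finset (Finset (Fin 6))} (h : Iso Pool.Agent.Run7.h247.T34.D7.FS F) :
    (6 * H.card / n ^ 3 : ℝ) ≤ 54501 / 100000 + 48837 / 100000 * (720 * copies F H / n ^ 6 + 15 / n) := by
  have h1 := Pool.Agent.Run7.h247.T34.D7.main h3 hK
  rw [Fintype.card_fin, copies_six] at h1
  have h2 := real_form (h1.trans (Nat.add_le_add_left (Nat.mul_le_mul_left _
    (Nat.add_le_add_right (Nat.mul_le_mul_left _ (copies_iso H h)) _)) _))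
  exact_mod_cast h2

theorem iso_0_0 : Iso (T 0 0) Pool.Agent.Run7.h247.T34.D0.FS :=
  iso_of _ _ ![0, 1, 2, 3, 4, 5] (by decide) (by decide +kernel)

theorem iso_0_1 : Iso (T 0 1) Pool.Agent.Run7.h247.T34.D0.FS :=
  iso_of _ _ ![0, 1, 2, 3, 4, 5] (by decide) (by decide +kernel)

theorem iso_0_2 : Iso (T 0 2) Pool.Agent.Run7.h247.T34.D1.FS :=
  iso_of _ _ ![0, 1, 2, 3, 4, 5] (by decide) (by decide +kernel)

theorem iso_0_3 : Iso (T 0 3) Pool.Agent.Run7.h247.T34.D2.FS :=
  iso_of _ _ ![0, 1, 2, 3, 4, 5] (by decide) (by decide +kernel)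

theorem iso_0_4 : Iso (T 0 4) Pool.Agent.Run7.h247.T34.D3.FS :=
  iso_of _ _ ![0, 1, 2, 3, 4, 5] (by decide) (by decide +kernel)

theorem iso_0_5 : Iso (T 0 5) Pool.Agent.Run7.h247.T34.D4.FS :=
  iso_of _ _ ![5, 0, 1, 2, 3, 4] (by decide) (by decide +kernel)

theorem iso_0_6 : Iso (T 0 6) Pool.Agent.Run7.h247.T34.D0.FS :=
  iso_of _ _ ![0, 1, 2, 3, 4, 5] (by decide) (by decide +kernel)

theorem iso_1_0 : Iso (T 1 0) Pool.Agent.Run7.h247.T34.D4.FS :=
  iso_of _ _ ![0, 1, 2, 3, 4, 5] (by decide) (by decide +kernel)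

theorem iso_1_1 : Iso (T 1 1) Pool.Agent.Run7.h247.T34.D4.FS :=
  iso_of _ _ ![0, 1, 2, 3, 4, 5] (by decide) (by decide +kernel)

theorem iso_1_2 : Iso (T 1 2) Pool.Agent.Run7.h247.T34.D5.FS :=
  iso_of _ _ ![0, 1, 2, 3, 4, 5] (by decide) (by decide +kernel)

theorem iso_1_3 : Iso (T 1 3) Pool.Agent.Run7.h247.T34.D6.FS :=
  iso_of _ _ ![0, 1, 2, 3, 4, 5] (by decide) (by decide +kernel)

theorem iso_1_4 : Iso (T 1 4) Pool.Agent.Run7.h247.T34.D4.FS :=
  iso_of _ _ ![5, 0, 1, 2, 3, 4] (by decide) (by decide +kernel)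

theorem iso_1_5 : Iso (T 1 5) Pool.Agent.Run7.h247.T34.D0.FS :=
  iso_of _ _ ![0, 1, 2, 3, 4, 5] (by decide) (by decide +kernel)

theorem iso_2_0 : Iso (T 2 0) Pool.Agent.Run7.h247.T34.D3.FS :=
  iso_of _ _ ![2, 3, 4, 5, 0, 1] (by decide) (by decide +kernel)

theorem iso_2_1 : Iso (T 2 1) Pool.Agent.Run7.h247.T34.D6.FS :=
  iso_of _ _ ![2, 3, 4, 5, 0, 1] (by decide) (by decide +kernel)

theorem iso_2_2 : Iso (T 2 2) Pool.Agent.Run7.h247.T34.D7.FS :=
  iso_of _ _ ![0, 1, 2, 3, 4, 5] (by decide) (by decide +kernel)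

theorem iso_2_3 : Iso (T 2 3) Pool.Agent.Run7.h247.T34.D5.FS :=
  iso_of _ _ ![5, 0, 1, 2, 3, 4] (by decide) (by decide +kernel)

theorem iso_2_4 : Iso (T 2 4) Pool.Agent.Run7.h247.T34.D1.FS :=
  iso_of _ _ ![0, 1, 2, 3, 4, 5] (by decide) (by decide +kernel)

theorem iso_3_0 : Iso (T 3 0) Pool.Agent.Run7.h247.T34.D2.FS :=
  iso_of _ _ ![3, 4, 5, 0, 1, 2] (by decide) (by decide +kernel)

theorem iso_3_1 : Iso (T 3 1) Pool.Agent.Run7.h247.T34.D5.FS :=
  iso_of _ _ ![3, 4, 5, 0, 1, 2] (by decide) (by decide +kernel)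

theorem iso_3_2 : Iso (T 3 2) Pool.Agent.Run7.h247.T34.D6.FS :=
  iso_of _ _ ![5, 0, 1, 2, 3, 4] (by decide) (by decide +kernel)

theorem iso_3_3 : Iso (T 3 3) Pool.Agent.Run7.h247.T34.D2.FS :=
  iso_of _ _ ![0, 1, 2, 3, 4, 5] (by decide) (by decide +kernel)

theorem iso_4_0 : Iso (T 4 0) Pool.Agent.Run7.h247.T34.D1.FS :=
  iso_of _ _ ![4, 5, 0, 1, 2, 3] (by decide) (by decide +kernel)

theorem iso_4_1 : Iso (T 4 1) Pool.Agent.Run7.h247.T34.D4.FS :=
  iso_of _ _ ![4, 0, 1, 2, 3, 5] (by decide) (by decide +kernel)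

theorem iso_4_2 : Iso (T 4 2) Pool.Agent.Run7.h247.T34.D3.FS :=
  iso_of _ _ ![0, 1, 2, 3, 4, 5] (by decide) (by decide +kernel)

theorem iso_5_0 : Iso (T 5 0) Pool.Agent.Run7.h247.T34.D0.FS :=
  iso_of _ _ ![0, 1, 2, 3, 4, 5] (by decide) (by decide +kernel)

theorem iso_5_1 : Iso (T 5 1) Pool.Agent.Run7.h247.T34.D4.FS :=
  iso_of _ _ ![5, 0, 1, 2, 3, 4] (by decide) (by decide +kernel)

theorem iso_6_0 : Iso (T 6 0) Pool.Agent.Run7.h247.T34.D0.FS :=
  iso_of _ _ ![0, 1, 2, 3, 4, 5] (by decide) (by decide +kernel)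

theorem main (a b c : ℕ) (habc : a + b + c = 6) {F : Finset (Finset (Fin 6))}
    (hF : Iso (T a b) F) {n : ℕ} {H : Finset (Finset (Fin n))}
    (h3 : ∀ e ∈ H, e.card = 3) (hK : K43Free H) :
    (6 * H.card / n ^ 3 : ℝ) ≤
      bet a b c + lam a b c * (720 * copies F H / n ^ 6 + 15 / n) := by
  obtain rfl : c = 6 - a - b := by omega
  have ha : a ≤ 6 := by omega
  have hb : b ≤ 6 - a := by omega
  clear habc
  interval_cases a
  · interval_cases b
    · exact base0 h3 hK (iso_0_0.symm.trans hF)
    · exact base0 h3 hK (iso_0_1.symm.trans hF)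
    · exact base1 h3 hK (iso_0_2.symm.trans hF)
    · exact base2 h3 hK (iso_0_3.symm.trans hF)
    · exact base3 h3 hK (iso_0_4.symm.trans hF)
    · exact base4 h3 hK (iso_0_5.symm.trans hF)
    · exact base0 h3 hK (iso_0_6.symm.trans hF)
  · interval_cases b
    · exact base4 h3 hK (iso_1_0.symm.trans hF)
    · exact base4 h3 hK (iso_1_1.symm.trans hF)
    · exact base5 h3 hK (iso_1_2.symm.trans hF)
    · exact base6 h3 hK (iso_1_3.symm.trans hF)
    · exact base4 h3 hK (iso_1_4.symm.trans hF)
    · exact base0 h3 hK (iso_1_5.symm.trans hF)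
  · interval_cases b
    · exact base3 h3 hK (iso_2_0.symm.trans hF)
    · exact base6 h3 hK (iso_2_1.symm.trans hF)
    · exact base7 h3 hK (iso_2_2.symm.trans hF)
    · exact base5 h3 hK (iso_2_3.symm.trans hF)
    · exact base1 h3 hK (iso_2_4.symm.trans hF)
  · interval_cases b
    · exact base2 h3 hK (iso_3_0.symm.trans hF)
    · exact base5 h3 hK (iso_3_1.symm.trans hF)
    · exact base6 h3 hK (iso_3_2.symm.trans hF)
    · exact base2 h3 hK (iso_3_3.symm.trans hF)
  · interval_cases b
    · exact base1 h3 hK (iso_4_0.symm.trans hF)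
    · exact base4 h3 hK (iso_4_1.symm.trans hF)
    · exact base3 h3 hK (iso_4_2.symm.trans hF)
  · interval_cases b
    · exact base0 h3 hK (iso_5_0.symm.trans hF)
    · exact base4 h3 hK (iso_5_1.symm.trans hF)
  · interval_cases b
    · exact base0 h3 hK (iso_6_0.symm.trans hF)

/-- a monotone division of six vertices is given by the sizes of the parts -/
theorem monotone_part : ∀ h : Fin 6 → Fin 3, (∀ i j, i ≤ j → h i ≤ h j) →
    ∃ a : Fin 7, ∃ b : Fin 7, a.val + b.val ≤ 6 ∧ ∀ i, h i = part a.val b.val i := by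
  decide +kernel

theorem mem_turan {n m : ℕ} (g : Fin n → Fin 3) (f : Fin m → Fin n) (hf : Function.Injective f)
    (t : Finset (Fin m)) : t.image f ∈ turan g ↔ t ∈ turan (g ∘ f) := by
  unfold turan
  have e : ∀ p, ((t.image f).filter fun i => g i = p).card =
      (t.filter fun i => (g ∘ f) i = p).card := by
    intro p
    rw [filter_image, card_image_of_injective _ hf]
    rfl
  rw [mem_filter, mem_filter, mem_powersetCard, mem_powersetCard, card_image_of_injective _ hf]
  simp only [e, subset_univ, true_and, mem_image, exists_exists_and_eq_and, Function.comp]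

/-- the size of a part -/
def z (g : Fin 6 → Fin 3) (p : Fin 3) : ℕ := (univ.filter fun i => g i = p).card

theorem z_part : ∀ a b : Fin 7, a.val + b.val ≤ 6 → z (part a.val b.val) 0 = a.val ∧
    z (part a.val b.val) 1 = b.val ∧ z (part a.val b.val) 2 = 6 - a.val - b.val := by
  decide +kernel

theorem z_comp (g : Fin 6 → Fin 3) (σ : Equiv.Perm (Fin 6)) (p : Fin 3) : z (g ∘ σ) p = z g p := by
  unfold z
  refine card_bij (fun i _ => σ i) ?_ ?_ ?_
  · intro i hi
    rw [mem_filter] at hi ⊢
    exact ⟨mem_univ _, hi.2⟩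
  · intro i _ j _ h
    exact σ.injective h
  · intro j hj
    rw [mem_filter] at hj
    refine ⟨σ.symm j, ?_, σ.apply_symm_apply j⟩
    rw [mem_filter]
    refine ⟨mem_univ _, ?_⟩
    rw [Function.comp, σ.apply_symm_apply]
    exact hj.2

theorem sorted (g : Fin 6 → Fin 3) :
    z g 0 + z g 1 + z g 2 = 6 ∧ Induces (T (z g 0) (z g 1)) (turan g) univ := by
  set σ := Tuple.sort g
  have hm : Monotone (g ∘ σ) := Tuple.monotone_sort _
  obtain ⟨a, b, hab, h⟩ := monotone_part (g ∘ σ) fun i j hij => hm hij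
  have hg : g ∘ σ = part a.val b.val := funext h
  obtain ⟨h0, h1, h2⟩ := z_part a b hab
  rw [← hg, z_comp] at h0 h1 h2
  refine ⟨by omega, ?_⟩
  rw [h0, h1]
  refine ⟨σ, σ.injective, ?_, ?_⟩
  · exact image_univ_of_surjective σ.surjective
  · intro t _
    rw [mem_turan g _ σ.injective, hg]
    rfl

section sharp

theorem free4 : ∀ h : Fin 4 → Fin 3, ∃ t : Finset (Fin 4), t.card = 3 ∧ t ∉ turan h := by
  decide +kernel

theorem turan_free {n : ℕ} (g : Fin n → Fin 3) : K43Free (turan g) := by
  intro S hS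
  set e := S.orderEmbOfFin hS
  obtain ⟨t, ht, hn⟩ := free4 (g ∘ e)
  refine ⟨t.image e, ?_, ?_, ?_⟩
  · intro v hv
    obtain ⟨i, -, rfl⟩ := mem_image.mp hv
    exact S.orderEmbOfFin_mem hS _
  · rw [card_image_of_injective _ e.injective, ht]
  · rw [mem_turan g _ e.injective]
    exact hn

/-- the part of a vertex in the division of `3 m` vertices into three blocks -/
def blk (m : ℕ) (v : Fin (3 * m)) : Fin 3 := (finProdFinEquiv.symm v).1

theorem count_ge (m k : ℕ) (P : (Fin k → Fin 3) → Prop) [DecidablePred P]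
    [DecidablePred fun x : Fin k → Fin (3 * m) => P (blk m ∘ x)] :
    m ^ k * ((univ : Finset (Fin k → Fin 3)).filter P).card ≤
      ((univ : Finset (Fin k → Fin (3 * m))).filter fun x => P (blk m ∘ x)).card := by
  have h1 : m ^ k * ((univ : Finset (Fin k → Fin 3)).filter P).card =
      ((univ : Finset (Fin k → Fin m)) ×ˢ ((univ : Finset (Fin k → Fin 3)).filter P)).card := by
    rw [card_product, card_univ, Fintype.card_fun, Fintype.card_fin, Fintype.card_fin]
  rw [h1]
  refine card_le_card_of_injOn (fun u i => finProdFinEquiv (u.2 i, u.1 i)) ?_ ?_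
  · rintro ⟨u, h⟩ hu
    rw [mem_coe, mem_product, mem_filter] at hu
    rw [mem_coe, mem_filter]
    refine ⟨mem_univ _, ?_⟩
    have e : (blk m ∘ fun i => finProdFinEquiv (h i, u i)) = h := by
      funext i
      simp [blk]
    simp only
    rw [e]
    exact hu.2.2
  · rintro ⟨u, h⟩ _ ⟨u', h'⟩ _ he
    have e1 : ∀ i, (h i, u i) = (h' i, u' i) := fun i => finProdFinEquiv.injective (congrFun he i)
    have e2 : u = u' := funext fun i => (Prod.ext_iff.mp (e1 i)).2
    have e3 : h = h' := funext fun i => (Prod.ext_iff.mp (e1 i)).1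
    rw [e2, e3]

theorem pair_three {V : Type} [Fintype V] (i j : Fin 3) (hij : i ≠ j) :
    ((univ : Finset (Fin 3 → V)).filter fun x => x i = x j).card ≤ Fintype.card V ^ 2 := by
  have h1 : ((univ : Finset (Fin 3 → V)).filter fun x => x i = x j).card ≤
      (univ : Finset ({k : Fin 3 // k ≠ j} → V)).card := by
    refine card_le_card_of_injOn (fun x k => x k.1) (fun x _ => mem_univ _) ?_
    intro x hx y hy hxy
    have hx' := (mem_filter.mp hx).2
    have hy' := (mem_filter.mp hy).2
    funext k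
    by_cases hk : k = j
    · have e := congrFun hxy ⟨i, hij⟩
      simp only at e
      rw [hk, ← hx', ← hy', e]
    · exact congrFun hxy ⟨k, hk⟩
  refine h1.trans ?_
  rw [card_univ, Fintype.card_fun]
  have h2 : Fintype.card {k : Fin 3 // k ≠ j} = 2 := by
    rw [Fintype.card_subtype_compl, Fintype.card_fin, Fintype.card_subtype_eq]
  rw [h2]

theorem noninj_three {V : Type} [Fintype V] :
    ((univ : Finset (Fin 3 → V)).filter fun x => ¬ Function.Injective x).card ≤
      3 * Fintype.card V ^ 2 := by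
  have h1 : ((univ : Finset (Fin 3 → V)).filter fun x => ¬ Function.Injective x) ⊆
      ((univ : Finset (Fin 3 × Fin 3)).filter fun p => p.1 < p.2).biUnion fun p =>
        (univ : Finset (Fin 3 → V)).filter fun x => x p.1 = x p.2 := by
    intro x hx
    have hx' := (mem_filter.mp hx).2
    rw [Function.Injective] at hx'
    push Not at hx'
    obtain ⟨i, j, hij, hne⟩ := hx'
    rw [mem_biUnion]
    rcases lt_or_gt_of_ne hne with h | h
    · exact ⟨(i, j), by simp [h], by simp [hij]⟩
    · exact ⟨(j, i), by simp [h], by simp [hij]⟩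
  refine (card_le_card h1).trans (card_biUnion_le.trans ?_)
  calc _ ≤ ∑ p ∈ (univ : Finset (Fin 3 × Fin 3)).filter (fun p => p.1 < p.2),
        Fintype.card V ^ 2 := by
        refine sum_le_sum fun p hp => pair_three p.1 p.2 ?_
        exact (mem_filter.mp hp).2.ne
    _ = 3 * Fintype.card V ^ 2 := by
        rw [sum_const, smul_eq_mul]
        congr 1

theorem three_count : ((univ : Finset (Fin 3 → Fin 3)).filter fun h =>
    (univ : Finset (Fin 3)) ∈ turan h).card = 15 := by
  decide +kernel

theorem fiber_three {n : ℕ} (S : Finset (Fin n)) (hS : S.card = 3) :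
    ((univ : Finset (Fin 3 → Fin n)).filter fun x => univ.image x = S).card ≤ 6 := by
  have hsub : ((univ : Finset (Fin 3 → Fin n)).filter fun x => univ.image x = S) ⊆
      (univ : Finset (Fin 3 ↪ S)).image (fun e i => (e i : Fin n)) := by
    intro x hx
    rw [mem_filter] at hx
    have hinj : Function.Injective x := by
      have h1 : (univ.image x).card = (univ : Finset (Fin 3)).card := by
        rw [hx.2, hS]; rfl
      have h2 := Finset.injOn_of_card_image_eq h1
      intro i j hij
      exact h2 (by simp) (by simp) hij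
    have hmem : ∀ i, x i ∈ S := fun i => by
      rw [← hx.2]; exact mem_image_of_mem _ (mem_univ _)
    rw [mem_image]
    refine ⟨⟨fun i => ⟨x i, hmem i⟩, ?_⟩, mem_univ _, rfl⟩
    intro i j hij
    exact hinj (congrArg Subtype.val hij)
  refine (card_le_card hsub).trans (card_image_le.trans ?_)
  rw [card_univ, Fintype.card_embedding_eq, Fintype.card_fin, Fintype.card_coe, hS]
  decide

theorem edges_turan (m : ℕ) : 15 * m ^ 3 ≤ 6 * (turan (blk m)).card + 27 * m ^ 2 := by
  have h1 := count_ge m 3 (fun h => (univ : Finset (Fin 3)) ∈ turan h)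
  rw [three_count] at h1
  have h2 : ((univ : Finset (Fin 3 → Fin (3 * m))).filter
      fun x => (univ : Finset (Fin 3)) ∈ turan (blk m ∘ x)).card ≤
      ((univ : Finset (Fin 3 → Fin (3 * m))).filter
        fun x => (univ : Finset (Fin 3)) ∈ turan (blk m ∘ x) ∧ Function.Injective x).card +
      ((univ : Finset (Fin 3 → Fin (3 * m))).filter fun x => ¬ Function.Injective x).card := by
    refine le_trans (card_le_card ?_) (card_union_le _ _)
    intro x hx
    have hx' := (mem_filter.mp hx).2
    rw [mem_union]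
    by_cases h : Function.Injective x
    · left; exact mem_filter.mpr ⟨mem_univ _, hx', h⟩
    · right; exact mem_filter.mpr ⟨mem_univ _, h⟩
  have h3 := noninj_three (V := Fin (3 * m))
  rw [Fintype.card_fin] at h3
  have hmap : ∀ x ∈ (univ : Finset (Fin 3 → Fin (3 * m))).filter
      (fun x => (univ : Finset (Fin 3)) ∈ turan (blk m ∘ x) ∧ Function.Injective x),
      univ.image x ∈ turan (blk m) := by
    intro x hx
    obtain ⟨h, hxi⟩ := (mem_filter.mp hx).2
    rw [mem_turan _ _ hxi]
    exact h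
  have h4 : ((univ : Finset (Fin 3 → Fin (3 * m))).filter
        fun x => (univ : Finset (Fin 3)) ∈ turan (blk m ∘ x) ∧ Function.Injective x).card ≤
      6 * (turan (blk m)).card := by
    rw [card_eq_sum_card_fiberwise hmap]
    calc _ ≤ ∑ S ∈ turan (blk m), 6 := by
          refine sum_le_sum fun S hS => ?_
          have hS3 : S.card = 3 := by
            unfold turan at hS
            exact (mem_powersetCard.mp (mem_filter.mp hS).1).2
          refine (card_le_card ?_).trans (fiber_three S hS3)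
          intro x hx
          rw [mem_filter] at hx ⊢
          exact ⟨mem_univ _, hx.2⟩
      _ = 6 * (turan (blk m)).card := by rw [sum_const, smul_eq_mul, mul_comm]
  have h7 : 3 * (3 * m) ^ 2 = 27 * m ^ 2 := by ring
  rw [h7] at h3
  rw [mul_comm]
  refine h1.trans (h2.trans (Nat.add_le_add h4 (le_trans (le_of_eq ?_) h3)))
  congr!

end sharp

theorem sub_of_copy {n : ℕ} (g : Fin n → Fin 3) {F : Finset (Finset (Fin 6))} {S : Finset (Fin n)}
    (h : Induces F (turan g) S) : ∃ a b : ℕ, a + b ≤ 6 ∧ Induces F (T a b) univ := by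
  obtain ⟨f, hf, -, he⟩ := h
  obtain ⟨h6, s, hs, -, hse⟩ := sorted (g ∘ f)
  set p := Equiv.ofBijective s (Finite.injective_iff_bijective.mp hs) with hp
  refine ⟨z (g ∘ f) 0, z (g ∘ f) 1, by omega, p.symm, p.symm.injective, ?_, ?_⟩
  · exact image_univ_of_surjective p.symm.surjective
  · intro t ht
    rw [← hse _ (by rw [card_image_of_injective _ p.symm.injective, ht]), ← he t ht,
      mem_turan g f hf, image_image]
    have e : s ∘ p.symm = id := by
      funext i
      exact p.apply_symm_apply i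
    rw [e, image_id]

theorem iso_of_induces {a b : ℕ} {F : Finset (Finset (Fin 6))} (h : Induces F (T a b) univ) :
    Iso (T a b) F := by
  obtain ⟨f, hf, -, he⟩ := h
  exact iso_of _ _ f hf he

theorem bet_le (a b c : ℕ) : bet a b c ≤ 55207 / 100000 := by
  unfold bet
  split <;> norm_num

theorem lam_pos (a b c : ℕ) : 0 < lam a b c := by
  unfold lam
  split <;> norm_num

theorem gap (a b c : ℕ) (habc : a + b + c = 6) :
    lam a b c * (615 / 1000000) ≤ 5 / 9 - 1 / 400 - bet a b c := by
  obtain rfl : c = 6 - a - b := by omega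
  have ha : a ≤ 6 := by omega
  have hb : b ≤ 6 - a := by omega
  clear habc
  interval_cases a <;> interval_cases b <;> norm_num [bet, lam]

theorem many (a b : ℕ) (hab : a + b ≤ 6) {F : Finset (Finset (Fin 6))}
    (hF : Induces F (T a b) univ) {n : ℕ} {H : Finset (Finset (Fin n))} (hn : 1000000 ≤ n)
    (h3 : ∀ e ∈ H, e.card = 3) (hK : K43Free H)
    (hd : ((5 / 9 - 1 / 400) * n ^ 3 : ℝ) ≤ 6 * H.card) : n ^ 6 ≤ 1200000 * copies F H := by
  have hc : a + b + (6 - a - b) = 6 := by omega
  have h1 := main a b (6 - a - b) hc (iso_of_induces hF) h3 hK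
  have hg := gap a b (6 - a - b) hc
  have hl := lam_pos a b (6 - a - b)
  have hn' : (1000000 : ℝ) ≤ n := by exact_mod_cast hn
  have hn0 : (0 : ℝ) < n := by linarith
  have h2 : (5 / 9 - 1 / 400 : ℝ) ≤ 6 * H.card / n ^ 3 := by
    rw [le_div_iff₀ (by positivity)]
    exact hd
  have h4 : lam a b (6 - a - b) * (615 / 1000000) ≤
      lam a b (6 - a - b) * (720 * copies F H / n ^ 6 + 15 / n) := by linarith
  have h5 : (615 / 1000000 : ℝ) ≤ 720 * copies F H / n ^ 6 + 15 / n :=
    le_of_mul_le_mul_left h4 hl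
  have h6 : (15 / n : ℝ) ≤ 15 / 1000000 := by gcongr
  have h7 : (600 / 1000000 : ℝ) ≤ 720 * copies F H / n ^ 6 := by linarith
  rw [le_div_iff₀ (by positivity)] at h7
  have h8 : ((n ^ 6 : ℕ) : ℝ) ≤ ((1200000 * copies F H : ℕ) : ℝ) := by
    push_cast
    linarith
  exact_mod_cast h8

/-- Let `F` be a 3-graph on six vertices. If `F` is a copy of the subgraph `T a b` of Turán's
construction, then the edge density of a `K_4^3`-free 3-graph is bounded by a constant less than `5/9`
plus a multiple of its density of induced copies of `F`; and there are at least `n⁶ / 1200000` copies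
if the edge density is at least `5/9 - 1/400` and `n ≥ 10⁶`. If `F` is not such a copy, then there
are `K_4^3`-free 3-graphs on `3 m` vertices with at least `(15 m³ - 27 m²) / 6` edges, hence of density
tending to `5/9`, which contain no induced copy of `F`. -/
theorem result (F : Finset (Finset (Fin 6))) :
    (∀ a b c : ℕ, a + b + c = 6 → Induces F (T a b) univ →
      bet a b c < 5 / 9 ∧ 0 < lam a b c ∧
      ∀ (n : ℕ) (H : Finset (Finset (Fin n))), (∀ e ∈ H, e.card = 3) → K43Free H →
        (6 * H.card / n ^ 3 : ℝ) ≤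
          bet a b c + lam a b c * (720 * copies F H / n ^ 6 + 15 / n)) ∧
    ((∃ a b : ℕ, a + b ≤ 6 ∧ Induces F (T a b) univ) →
      ∀ (n : ℕ) (H : Finset (Finset (Fin n))), 1000000 ≤ n → (∀ e ∈ H, e.card = 3) → K43Free H →
        ((5 / 9 - 1 / 400) * n ^ 3 : ℝ) ≤ 6 * H.card → n ^ 6 ≤ 1200000 * copies F H) ∧
    ((¬ ∃ a b : ℕ, a + b ≤ 6 ∧ Induces F (T a b) univ) →
      ∀ m : ℕ, ∃ H : Finset (Finset (Fin (3 * m))), (∀ e ∈ H, e.card = 3) ∧ K43Free H ∧
        15 * m ^ 3 ≤ 6 * H.card + 27 * m ^ 2 ∧ copies F H = 0) := by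
  refine ⟨fun a b c habc hF => ⟨?_, lam_pos a b c, fun n H h3 hK =>
    main a b c habc (iso_of_induces hF) h3 hK⟩, ?_, ?_⟩
  · have := bet_le a b c
    linarith
  · rintro ⟨a, b, hab, hF⟩ n H hn h3 hK hd
    exact many a b hab hF hn h3 hK hd
  · intro hF m
    refine ⟨turan (blk m), ?_, turan_free _, edges_turan m, ?_⟩
    · intro e he
      unfold turan at he
      exact (mem_powersetCard.mp (mem_filter.mp he).1).2
    · unfold copies
      rw [card_eq_zero, filter_eq_empty_iff]
      intro S _ hS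
      exact hF (sub_of_copy _ hS)

end Pool.Agent.Results.MP_466853_co.AllSixVertexSubgraphs
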