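import Pool.Agent.Run7.h678.CU.Glob

set_option autoImplicit false

/-!
Turan's (3,4)-conjecture up to an additive term for coverings with many saturated triples.

Let `T` be a family of triples of an `n`-set such that every four vertices contain a member of `T`.
If `B 1, ..., B r` are disjoint triples with `D` defects altogether (pairs of a triple `B i` and a
vertex `x` outside for which `B i ∪ {x}` does not contain exactly one member of `T`, or `B i` is in
`T`) and `s` is the number of the vertices outside of the triples, then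
`t(n) ≤ |T| + 5 n D + min (4 s ^ 3) (t(s) + r (C(s,2) - [s ^ 2 / 3]))`; the last term is `0` for
`s ≤ 3` and always at most `4 s ^ 3`, independently of `n`.
-/

namespace Pool.Agent.Results.MP_466853_co.CubicDeficiency

open Finset

/-- `T` is a family of triples such that every four vertices contain a member of `T`
(equivalently, the complementary 3-graph has no complete 3-graph on four vertices). -/
def Covering {V : Type} [DecidableEq V] (T : Finset (Finset V)) : Prop :=
  (∀ t ∈ T, t.card = 3) ∧ ∀ S : Finset V, S.card = 4 → ∃ t ∈ T, t ⊆ S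

/-- The defects of a triple `B`: the vertices `x` outside `B` for which it is not true that
`B` is no member of `T` and `B` together with `x` contains exactly one member of `T`. -/
def defects {V : Type} [Fintype V] [DecidableEq V] (T : Finset (Finset V)) (B : Finset V) :
    Finset V :=
  univ.filter (fun x => x ∉ B ∧ ¬ (B ∉ T ∧ (T.filter (fun t => t ⊆ insert x B)).card = 1))

/-- The conjectured value of the Turan number `t(n)`: the number of edges of the construction
of Turan on `n` vertices. -/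
def turanNumber (n : ℕ) : ℕ :=
  if n % 3 = 0 then (n / 3) * (n / 3 - 1) * (2 * (n / 3) - 1)
  else if n % 3 = 1 then (n / 3) ^ 2 * (2 * (n / 3) - 1)
  else (n / 3) ^ 2 * (2 * (n / 3) + 1)

theorem turan0 (r : ℕ) : ((turanNumber (3 * r) : ℕ) : ℤ) = 2 * r ^ 3 - 3 * r ^ 2 + r := by
  rcases r with _ | r
  · simp [turanNumber]
  · have h1 : 3 * (r + 1) % 3 = 0 := by omega
    have h2 : 3 * (r + 1) / 3 = r + 1 := by omega
    have h3 : 2 * (r + 1) - 1 = 2 * r + 1 := by omega
    simp only [turanNumber, h1, h2, h3, if_true, Nat.add_sub_cancel]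
    push_cast
    ring

theorem turan1 (r : ℕ) : ((turanNumber (3 * r + 1) : ℕ) : ℤ) = 2 * r ^ 3 - r ^ 2 := by
  rcases r with _ | r
  · simp [turanNumber]
  · have h1 : (3 * (r + 1) + 1) % 3 = 1 := by omega
    have h2 : (3 * (r + 1) + 1) / 3 = r + 1 := by omega
    have h3 : 2 * (r + 1) - 1 = 2 * r + 1 := by omega
    simp only [turanNumber, h1, h2, h3, if_true]
    push_cast
    ring

theorem turan2 (r : ℕ) : ((turanNumber (3 * r + 2) : ℕ) : ℤ) = 2 * r ^ 3 + r ^ 2 := by
  have h1 : (3 * r + 2) % 3 = 2 := by omega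
  have h2 : (3 * r + 2) / 3 = r := by omega
  simp only [turanNumber, h1, h2]
  push_cast
  ring

theorem dd_sum {V : Type} [Fintype V] [DecidableEq V] (T : Finset (Finset V)) (B : Finset V) :
    ∑ x : V, Run7.h678.Sat.dd T B x = (defects T B).card := by
  rw [defects, card_filter]
  refine sum_congr rfl fun x _ => ?_
  unfold Run7.h678.Sat.dd Run7.h678.Sat.Good
  congr

/-- the identity behind the comparison with the number of Turan -/
theorem ident (r s : ℕ) :
    6 * ((turanNumber (3 * r + s) : ℕ) : ℤ) =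
      12 * r ^ 3 - 18 * r ^ 2 + 6 * r + 3 * (s * (4 * r ^ 2 - 2 * r)) +
      3 * (2 * r * (s ^ 2 - s) - 2 * r * ((s ^ 2 / 3 : ℕ) : ℤ)) +
      6 * ((turanNumber s : ℕ) : ℤ) := by
  have hk : ∃ k, s = 3 * k ∨ s = 3 * k + 1 ∨ s = 3 * k + 2 := ⟨s / 3, by omega⟩
  obtain ⟨k, rfl | rfl | rfl⟩ := hk
  · have h1 : (3 * k) ^ 2 / 3 = 3 * k ^ 2 := by
      rw [show (3 * k) ^ 2 = 3 * (3 * k ^ 2) by ring]; omega
    have h2 := turan0 (r + k)
    rw [show 3 * (r + k) = 3 * r + 3 * k by ring] at h2
    rw [h1, h2, turan0 k]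
    push_cast
    ring
  · have h1 : (3 * k + 1) ^ 2 / 3 = 3 * k ^ 2 + 2 * k := by
      rw [show (3 * k + 1) ^ 2 = 3 * (3 * k ^ 2 + 2 * k) + 1 by ring]; omega
    have h2 := turan1 (r + k)
    rw [show 3 * (r + k) + 1 = 3 * r + (3 * k + 1) by ring] at h2
    rw [h1, h2, turan1 k]
    push_cast
    ring
  · have h1 : (3 * k + 2) ^ 2 / 3 = 3 * k ^ 2 + 4 * k + 1 := by
      rw [show (3 * k + 2) ^ 2 = 3 * (3 * k ^ 2 + 4 * k + 1) + 1 by ring]; omega
    have h2 := turan2 (r + k)
    rw [show 3 * (r + k) + 2 = 3 * r + (3 * k + 2) by ring] at h2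
    rw [h1, h2, turan2 k]
    push_cast
    ring

theorem t_le (s : ℕ) : 8 * ((turanNumber s : ℕ) : ℤ) ≤ 7 * s ^ 3 := by
  have hk : ∃ k, s = 3 * k ∨ s = 3 * k + 1 ∨ s = 3 * k + 2 := ⟨s / 3, by omega⟩
  obtain ⟨k, rfl | rfl | rfl⟩ := hk
  · rw [turan0 k]
    have hk0 : (0 : ℤ) ≤ k := by positivity
    have hk2 : (k : ℤ) ≤ k ^ 3 := by
      have : k ≤ k ^ 3 := Nat.le_self_pow (by norm_num) k
      exact_mod_cast this
    push_cast
    nlinarith [mul_nonneg hk0 hk0, mul_nonneg hk0 (mul_nonneg hk0 hk0)]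
  · rw [turan1 k]
    have hk0 : (0 : ℤ) ≤ k := by positivity
    push_cast
    nlinarith [mul_nonneg hk0 hk0, mul_nonneg hk0 (mul_nonneg hk0 hk0)]
  · rw [turan2 k]
    have hk0 : (0 : ℤ) ≤ k := by positivity
    push_cast
    nlinarith [mul_nonneg hk0 hk0, mul_nonneg hk0 (mul_nonneg hk0 hk0)]

theorem two_choose (s : ℕ) : (2 : ℤ) * (s.choose 2 : ℕ) = s ^ 2 - s := by
  have h := Nat.triangle_succ
  rcases s with _ | s
  · simp
  · have h1 : (s + 1).choose 2 * 2 = (s + 1) * s := by
      rw [Nat.choose_two_right, Nat.add_sub_cancel]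
      exact Nat.div_mul_cancel (Nat.even_mul_succ_self s |>.two_dvd |> fun h => by
        rwa [mul_comm] at h)
    have h2 : (((s + 1).choose 2 * 2 : ℕ) : ℤ) = (((s + 1) * s : ℕ) : ℤ) := by rw [h1]
    push_cast at h2 ⊢
    linarith

theorem result (V : Type) [Fintype V] [DecidableEq V] (T : Finset (Finset V)) (hT : Covering T)
    (r s : ℕ) (B : Fin r → Finset V) (hB : ∀ i, (B i).card = 3)
    (hdis : ∀ i j, i ≠ j → Disjoint (B i) (B j)) (hs : Fintype.card V = 3 * r + s) :
    turanNumber (Fintype.card V) ≤ T.card + 5 * Fintype.card V * ∑ i, (defects T (B i)).card +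
      min (4 * s ^ 3) (turanNumber s + r * (s.choose 2 - s ^ 2 / 3)) := by
  have e : (∑ i, ∑ x : V, (Run7.h678.Sat.dd T (B i) x : ℤ)) =
      ∑ i, ((defects T (B i)).card : ℤ) := by
    refine sum_congr rfl fun i _ => ?_
    rw [← dd_sum]
    push_cast
    rfl
  have hD : (0 : ℤ) ≤ ∑ i, ((defects T (B i)).card : ℤ) := by positivity
  have hnD : (0 : ℤ) ≤ (3 * r + s) * ∑ i, ((defects T (B i)).card : ℤ) := by positivity
  have hi := ident r s
  have ht := t_le s
  have h1 : turanNumber (Fintype.card V) ≤ T.card +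
      5 * Fintype.card V * ∑ i, (defects T (B i)).card + 4 * s ^ 3 := by
    have h := Run7.h678.CU.main96 (T := T) hT hB hdis s hs
    rw [hs]
    zify
    rw [e] at h
    linarith
  have h2 : turanNumber (Fintype.card V) ≤ T.card +
      5 * Fintype.card V * ∑ i, (defects T (B i)).card +
        (turanNumber s + r * (s.choose 2 - s ^ 2 / 3)) := by
    have h := Run7.h678.Sat.main (T := T) hT hB hdis s hs
    have hc := two_choose s
    have hsub : ((s.choose 2 : ℕ) : ℤ) - ((s ^ 2 / 3 : ℕ) : ℤ) ≤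
        ((s.choose 2 - s ^ 2 / 3 : ℕ) : ℤ) := by omega
    have hr : (0 : ℤ) ≤ r := by positivity
    have hm := mul_le_mul_of_nonneg_left hsub hr
    have hrc : (2 : ℤ) * (r * (s.choose 2 : ℕ)) = r * (s ^ 2 - s) := by
      rw [← hc]; ring
    rw [hs]
    zify [Nat.cast_sub]
    push_cast at h hi hm ⊢
    rw [e] at h
    generalize ((s.choose 2 - s ^ 2 / 3 : ℕ) : ℤ) = w at hm ⊢
    linarith
  rcases min_choice (4 * s ^ 3) (turanNumber s + r * (s.choose 2 - s ^ 2 / 3)) with h | h <;>
    rw [h]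
  · exact h1
  · exact h2

end Pool.Agent.Results.MP_466853_co.CubicDeficiency
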