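import Pool.Agent.Run7.h346.CT.Conv

/-!
# Pairs contained in few triples of a Turán (3,4)-covering

Let `T` be a set of triples on `n` vertices such that every set of four vertices contains a member of
`T` (the 3-graphs of Turán's (3,4)-conjecture), and for a pair `P` of vertices let `t(P)` be the number
of members of `T` containing `P`. So `n - 2 - t(P)` is the codegree of `P` in the complementary
`K_4^3`-free 3-graph. We determine exactly how many pairs can be in few members of `T`:

* for every `b ≥ 1` and `n ≥ 100 b^3` at most `b (n - b)` pairs are in fewer than `b` members of `T`;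
* this is sharp for all `b ≤ n`: let `|B| = b` and let `T` consist of all triples `e` with
  `|e ∩ B| ≠ 1`;
* if there are exactly `b (n - b)` such pairs, then `T` is of this form: there is a set `B` of `b`
  vertices such that these pairs are the pairs with exactly one vertex in `B`, and up to an exceptional
  set `E` of at most `85 b^3` other vertices `T` consists of the triples `e` with `|e ∩ B| ≠ 1`
  (the triples inside `B` being arbitrary);
* the generating function: for `0 < r < 1` the maximum of `∑_P r^(t(P))` is `(s + o(1)) n` with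
  `s = max_k k r^(k-1)`.

The density conjecture is a statement on the mean value of `t(P)`, i.e. on the exponent `1`; the
theorem describes the pairs at the other end. Here the extremal construction is not Turán's.

Proof (`Pool.Agent.Run7.h346.CT`). Join `x` and `y` if `t(x,y) < b`, and let `M(x,y)` be the set of the
`z` with `xyz ∈ T`. If `xy` and `zw` are joined, one of the four vertices is in `M` of the other pair.
(1) Between two vertices of degree `> 2b^2 + 3b` there is an arrow `x → x'`: `x' ∈ M(x,z)` for all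
but `2b + 2` neighbours `z` of `x`. A vertex has at most `b - 1` out-neighbours; so there are at most
`2b - 1` vertices of large degree, and the other vertices span at most `20 b^3` edges. (2) For two
vertices `x`, `x'` of large degree, at most `2b + 2` common neighbours `y` have `xx'y ∉ T`. So a vertex
`y` has at most `b` neighbours of large degree, up to a total error `O(b^2)`. (3) If there are at least
`b (n - b)` edges, then for all but `O(b^3)` vertices `y`, the neighbourhood of `y` consists of exactly
`b` vertices of large degree, and `M(x,y) = N(y) \ x` for all neighbours `x` of `y`. Two such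
neighbourhoods must be equal. (4) No edge can be inside of the complement of the common neighbourhood
or inside of it.
-/

set_option autoImplicit false
open Finset
open scoped Classical

namespace Pool.Agent.Results.MP_466853_co.FewTriplesOverPairs

open Pool.Agent.Run7.h346.LC Pool.Agent.Run7.h346.CT

/-- `T` consists of triples, and every set of four vertices contains a member of `T`. -/
def Covering {n : ℕ} (T : Finset (Finset (Fin n))) : Prop :=
  (∀ e ∈ T, e.card = 3) ∧ ∀ S : Finset (Fin n), S.card = 4 → ∃ e ∈ T, e ⊆ S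

/-- The number of members of `T` which contain the set `P`. -/
def deg {n : ℕ} (T : Finset (Finset (Fin n))) (P : Finset (Fin n)) : ℕ :=
  (T.filter fun e => P ⊆ e).card

/-- The pairs of vertices. -/
def pairs (n : ℕ) : Finset (Finset (Fin n)) := (univ : Finset (Fin n)).powersetCard 2

/-- The maximum (supremum) of `k r^(k-1)` over all `k`. -/
noncomputable def s (r : ℝ) : ℝ := ⨆ k : ℕ, (k : ℝ) * r ^ (k - 1)

theorem bdd {r : ℝ} (hr : 0 < r) (hr1 : r < 1) :
    BddAbove (Set.range fun k : ℕ => (k : ℝ) * r ^ (k - 1)) := by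
  have h1 := tendsto_self_mul_const_pow_of_lt_one hr.le hr1
  obtain ⟨C, hC⟩ := h1.bddAbove_range
  refine ⟨C / r, ?_⟩
  rintro _ ⟨k, rfl⟩
  simp only
  rw [le_div_iff₀ hr]
  rcases k with _ | k
  · have := hC ⟨0, rfl⟩
    simpa using this
  · have := hC ⟨k + 1, rfl⟩
    simp only [Nat.add_sub_cancel] at this ⊢
    rw [pow_succ] at this
    linarith

theorem count_eq {n b : ℕ} {T : Finset (Finset (Fin n))} (hT : ∀ e ∈ T, e.card = 3)
    (hn : b + 1 < n) :
    ∑ x : Fin n, (N (rel T) b x).card = 2 * ((pairs n).filter fun P => deg T P < b).card := by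
  have h1 := sum_pairs (n := n) (R := ℕ) fun P => if deg T P < b then 1 else 0
  rw [card_filter]
  unfold pairs
  rw [← h1]
  have h2 : ∀ x : Fin n, (N (rel T) b x).card = ∑ y : Fin n, if y ∈ N (rel T) b x then 1 else 0 := by
    intro x
    rw [← card_filter]
    congr 1
    ext y
    simp
  simp only [h2]
  rw [← sum_product', univ_product_univ, ← sum_subset (subset_univ (univ : Finset (Fin n)).offDiag)]
  · refine sum_congr rfl fun p hp => ?_
    have h3 := (mem_offDiag.1 hp).2.2
    rw [if_congr (mem_N_iff hT hn p.1 p.2) rfl rfl]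
    refine if_congr ?_ rfl rfl
    exact ⟨fun h => h.2, fun h => ⟨h3, h⟩⟩
  · intro p _ hp
    rw [if_neg]
    rw [mem_N_iff hT hn]
    rintro ⟨h3, -⟩
    exact hp (mem_offDiag.2 ⟨mem_univ _, mem_univ _, h3⟩)

/-- the triples which do not have exactly one vertex less than `b` -/
noncomputable def ex (n b : ℕ) : Finset (Finset (Fin n)) :=
  univ.filter fun e => e.card = 3 ∧ (e.filter fun x => x.val < b).card ≠ 1

theorem ex_cov (n b : ℕ) : Covering (ex n b) := by
  refine ⟨fun e he => (mem_filter.1 he).2.1, fun S hS => ?_⟩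
  obtain ⟨e, h1, h2, h3⟩ := aab_free (n := n) (b := b) S hS
  refine ⟨e, mem_filter.2 ⟨mem_univ _, h2, fun h4 => h3 ?_⟩, h1⟩
  exact mem_filter.2 ⟨mem_univ _, h2, h4⟩

theorem ex_deg {n b : ℕ} {x y : Fin n} (hx : x.val < b) (hy : b ≤ y.val) :
    deg (ex n b) {x, y} ≤ b - 1 := by
  have hxy : x ≠ y := fun h => by rw [h] at hx; omega
  have h1 := card_M (T := ex n b) (ex_cov n b).1 hxy
  have h2 : M (rel (ex n b)) x y ⊆ insert y (univ.filter fun z : Fin n => z.val < b) := by
    intro z hz
    rw [mem_insert, mem_filter]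
    by_contra hcon
    simp only [not_or, mem_univ, true_and, not_lt] at hcon
    rw [mem_M] at hz
    apply hz
    refine ⟨hxy, fun h => ?_, fun h => hcon.1 h.symm, fun h => ?_⟩
    · rw [h] at hx
      omega
    · have h3 := aab_mem hx hy hcon.2 (fun h => hcon.1 h.symm)
      exact (mem_filter.1 h).2.2 (mem_filter.1 h3).2.2
  have h3 := card_le_card h2
  have h4 := card_insert_le y (univ.filter fun z : Fin n => z.val < b)
  rw [Fin.card_filter_val_lt] at h4
  have h5 : min n b ≤ b := min_le_right _ _
  have h6 : deg (ex n b) {x, y} = dg (ex n b) {x, y} := rfl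
  omega

/-- a sum over the pairs for the construction -/
theorem ex_sum {n b : ℕ} (hb : b ≤ n) (F : ℕ → ℝ) (hF : ∀ k, 0 ≤ F k) {c : ℝ}
    (hc : ∀ k, k ≤ b - 1 → c ≤ F k) :
    (b : ℝ) * ((n - b : ℕ) : ℝ) * c ≤ ∑ P ∈ pairs n, F (deg (ex n b) P) := by
  have h1 := sum_pairs (n := n) (R := ℝ) fun P => F (deg (ex n b) P)
  have h2 := sum_ge hb (fun x y => if x ≠ y then F (deg (ex n b) {x, y}) else 0) c
    (fun x y => by
      split_ifs
      · exact hF _
      · exact le_rfl)
    (fun x y hx hy => by
      have hxy : x ≠ y := fun h => by rw [h] at hx; omega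
      rw [if_pos hxy]
      exact hc _ (ex_deg hx hy))
    (fun x y hx hy => by
      have hxy : y ≠ x := fun h => by rw [← h] at hx; omega
      rw [if_pos hxy, Finset.pair_comm]
      exact hc _ (ex_deg hx hy))
  have h3 : ∑ x : Fin n, ∑ y : Fin n, (if x ≠ y then F (deg (ex n b) {x, y}) else 0) =
      ∑ p ∈ (univ : Finset (Fin n)).offDiag, F (deg (ex n b) {p.1, p.2}) := by
    rw [← sum_product', univ_product_univ, ← sum_filter]
    refine sum_congr ?_ fun _ _ => rfl
    ext p
    simp
  rw [h3, h1] at h2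
  unfold pairs
  linarith

theorem part1 : ∀ b n : ℕ, 0 < b → 100 * b ^ 3 ≤ n → ∀ T : Finset (Finset (Fin n)), Covering T →
      ((pairs n).filter fun P => deg T P < b).card ≤ b * (n - b) := by
  intro b n hb hn T hT
  have hb3 : b ≤ b ^ 3 := by nlinarith [Nat.pow_le_pow_left hb 2]
  have h1 := count_le (b := b) (rel_free hT) (rel_irr T) hb (by rw [Fintype.card_fin]; exact hn)
  rw [count_eq hT.1 (by omega), Fintype.card_fin] at h1
  omega

theorem part2 : ∀ b n : ℕ, 0 < b → 100 * b ^ 3 ≤ n → ∀ T : Finset (Finset (Fin n)), Covering T →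
      ((pairs n).filter fun P => deg T P < b).card = b * (n - b) →
      ∃ B E : Finset (Fin n), B.card = b ∧ Disjoint B E ∧ E.card ≤ 85 * b ^ 3 ∧
        (∀ P ∈ pairs n, (deg T P < b ↔ (P ∩ B).card = 1)) ∧
        ∀ e : Finset (Fin n), e.card = 3 → Disjoint e E → ¬ e ⊆ B → (e ∈ T ↔ (e ∩ B).card ≠ 1) := by
  intro b n hb hn T hT heq
  have hb3 : b ≤ b ^ 3 := by nlinarith [Nat.pow_le_pow_left hb 2]
  have hn1 : b + 1 < n := by omega
  have h0 := rel_free hT
  have htot := count_eq (b := b) hT.1 hn1
  obtain ⟨B, X, hB, h1, hXc, hXm⟩ := str (b := b) h0 (rel_irr T) hb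
    (by rw [Fintype.card_fin]; exact hn) (by rw [htot, heq, Fintype.card_fin])
  -- all the cross pairs are there
  have hsub1 : ∀ x ∈ B, N (rel T) b x ⊆ univ \ B := fun x hx y hy => by
    rcases h1 x y hy with h4 | h4
    · simp [h4.2]
    · exact absurd hx h4.1
  have hsub2 : ∀ x, x ∉ B → N (rel T) b x ⊆ B := fun x hx y hy => by
    rcases h1 x y hy with h4 | h4
    · exact absurd h4.1 hx
    · exact h4.2
  have hcB : (univ \ B : Finset (Fin n)).card = n - b := by
    rw [card_sdiff_of_subset (subset_univ _), card_univ, hB, Fintype.card_fin]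
  have hle : ∀ x ∈ (univ : Finset (Fin n)), (N (rel T) b x).card ≤ if x ∈ B then n - b else b := by
    intro x _
    split_ifs with h3
    · rw [← hcB]
      exact card_le_card (hsub1 x h3)
    · exact (card_le_card (hsub2 x h3)).trans hB.le
  have hsum : ∑ x : Fin n, (N (rel T) b x).card = ∑ x : Fin n, if x ∈ B then n - b else b := by
    rw [htot, heq, sum_ite, sum_const, sum_const, smul_eq_mul, smul_eq_mul]
    have h3 : (univ.filter fun x => x ∈ B) = B := by ext; simp
    have h4 : (univ.filter fun x => x ∉ B) = univ \ B := by ext; simp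
    rw [h3, h4, hcB, hB]
    ring
  have heach := (sum_eq_sum_iff_of_le hle).1 hsum
  have hN : ∀ x y : Fin n, y ∈ N (rel T) b x ↔ (x ∈ B ∧ y ∉ B) ∨ (x ∉ B ∧ y ∈ B) := by
    intro x y
    refine ⟨h1 x y, ?_⟩
    rintro (⟨h3, h4⟩ | ⟨h3, h4⟩)
    · have h5 := heach x (mem_univ _)
      rw [if_pos h3] at h5
      have h6 := eq_of_subset_of_card_le (hsub1 x h3) (by rw [hcB]; exact h5.ge)
      rw [h6]
      simp [h4]
    · have h5 := heach x (mem_univ _)
      rw [if_neg h3] at h5
      have h6 := eq_of_subset_of_card_le (hsub2 x h3) (by rw [hB]; exact h5.ge)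
      rw [h6]
      exact h4
  have hgood : ∀ y, y ∉ B → y ∉ X \ B → ∀ x ∈ B, ∀ z, (z ∈ M (rel T) x y ↔ z = y ∨ z ∈ B) := by
    intro y hy hyX
    rw [Finset.mem_sdiff, not_and, not_not] at hyX
    exact hXm y fun h3 => hy (hyX h3)
  refine ⟨B, X \ B, hB, disjoint_sdiff, (card_le_card sdiff_subset).trans hXc, ?_, ?_⟩
  · intro P hP
    obtain ⟨x, y, hxy, rfl⟩ := card_eq_two.1 (mem_powersetCard.1 hP).2
    have h3 := mem_N_iff (b := b) hT.1 hn1 x y
    have h4 : deg T {x, y} < b ↔ y ∈ N (rel T) b x := by
      rw [h3]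
      exact ⟨fun h => ⟨hxy, h⟩, fun h => h.2⟩
    rw [h4, hN]
    by_cases hx : x ∈ B <;> by_cases hy : y ∈ B
    · have : ({x, y} : Finset (Fin n)) ∩ B = {x, y} := by
        rw [inter_eq_left]
        intro z hz
        simp only [mem_insert, mem_singleton] at hz
        rcases hz with rfl | rfl
        · exact hx
        · exact hy
      rw [this, card_pair hxy]
      simp [hx, hy]
    · have : ({x, y} : Finset (Fin n)) ∩ B = {x} := by
        ext z
        simp only [mem_inter, mem_insert, mem_singleton]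
        constructor
        · rintro ⟨rfl | rfl, h5⟩
          · rfl
          · exact absurd h5 hy
        · rintro rfl
          exact ⟨Or.inl rfl, hx⟩
      rw [this]
      simp [hx, hy]
    · have : ({x, y} : Finset (Fin n)) ∩ B = {y} := by
        ext z
        simp only [mem_inter, mem_insert, mem_singleton]
        constructor
        · rintro ⟨rfl | rfl, h5⟩
          · exact absurd h5 hx
          · rfl
        · rintro rfl
          exact ⟨Or.inr rfl, hy⟩
      rw [this]
      simp [hx, hy]
    · have : ({x, y} : Finset (Fin n)) ∩ B = ∅ := by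
        ext z
        simp only [mem_inter, mem_insert, mem_singleton, Finset.notMem_empty, iff_false, not_and]
        rintro (rfl | rfl)
        · exact hx
        · exact hy
      rw [this]
      simp [hx, hy]
  · intro e he hE heB
    have hEe : ∀ y ∈ e, y ∉ X \ B := fun y hy => Finset.disjoint_left.1 hE hy
    -- a relation for good vertices
    have hrel : ∀ x ∈ B, ∀ y ∈ e, y ∉ B → ∀ z, z ≠ y → (rel T x y z ↔ z ∉ B) := by
      intro x hx y hy hyB z hz
      have h5 := hgood y hyB (hEe y hy) x hx z
      have h6 : z ∈ M (rel T) x y ↔ z ∈ B := by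
        rw [h5]
        simp [hz]
      rw [mem_M] at h6
      tauto
    obtain ⟨a, c, d, hac, had, hcd, rfl⟩ := card_eq_three.1 he
    have hcnt : ∀ S : Finset (Fin n), S.card ≠ 1 → (({a, c, d} : Finset (Fin n)) ∩ B = S) →
        (({a, c, d} : Finset (Fin n)) ∩ B).card ≠ 1 := fun S h3 h4 => h4 ▸ h3
    -- the statement for a fixed pattern
    have key1 : ∀ x y z : Fin n, x ≠ y → x ≠ z → y ≠ z → ({x, y, z} : Finset (Fin n)) = {a, c, d} →
        x ∈ B → y ∉ B → z ∉ B → ({a, c, d} ∈ T ↔ (({a, c, d} : Finset (Fin n)) ∩ B).card ≠ 1) := by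
      intro x y z hxy hxz hyz hs hx hy hz
      have h5 : rel T x y z := (hrel x hx y (by rw [← hs]; simp) hy z hyz.symm).2 hz
      have h6 : ({a, c, d} : Finset (Fin n)) ∩ B = {x} := by
        rw [← hs]
        ext w
        simp only [mem_inter, mem_insert, mem_singleton]
        constructor
        · rintro ⟨rfl | rfl | rfl, h7⟩
          · rfl
          · exact absurd h7 hy
          · exact absurd h7 hz
        · rintro rfl
          exact ⟨Or.inl rfl, hx⟩
      rw [h6, ← hs]
      simp [h5.2.2.2]
    have key2 : ∀ x y z : Fin n, x ≠ y → x ≠ z → y ≠ z → ({x, y, z} : Finset (Fin n)) = {a, c, d} →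
        x ∈ B → y ∉ B → z ∈ B → ({a, c, d} ∈ T ↔ (({a, c, d} : Finset (Fin n)) ∩ B).card ≠ 1) := by
      intro x y z hxy hxz hyz hs hx hy hz
      have h5 : ¬ rel T x y z := fun h => (hrel x hx y (by rw [← hs]; simp) hy z hyz.symm).1 h hz
      have h6 : ({a, c, d} : Finset (Fin n)) ∩ B = {x, z} := by
        rw [← hs]
        ext w
        simp only [mem_inter, mem_insert, mem_singleton]
        constructor
        · rintro ⟨rfl | rfl | rfl, h7⟩
          · exact Or.inl rfl
          · exact absurd h7 hy
          · exact Or.inr rfl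
        · rintro (rfl | rfl)
          · exact ⟨Or.inl rfl, hx⟩
          · exact ⟨Or.inr (Or.inr rfl), hz⟩
      have h7 : ({x, y, z} : Finset (Fin n)) ∈ T := by
        by_contra h8
        exact h5 ⟨hxy, hxz, hyz, h8⟩
      rw [h6, card_pair hxz, ← hs]
      simp [h7]
    have key0 : ∀ x y z : Fin n, x ≠ y → x ≠ z → y ≠ z → ({x, y, z} : Finset (Fin n)) = {a, c, d} →
        x ∉ B → y ∉ B → z ∉ B → ({a, c, d} ∈ T ↔ (({a, c, d} : Finset (Fin n)) ∩ B).card ≠ 1) := by
      intro x y z hxy hxz hyz hs hx hy hz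
      obtain ⟨w, hw⟩ : B.Nonempty := card_pos.1 (by omega)
      have h5 : rel T w x y := (hrel w hw x (by rw [← hs]; simp) hx y hxy.symm).2 hy
      have h6 : rel T w x z := (hrel w hw x (by rw [← hs]; simp) hx z hxz.symm).2 hz
      have h7 : rel T w y z := (hrel w hw y (by rw [← hs]; simp) hy z hyz.symm).2 hz
      have h8 : ({x, y, z} : Finset (Fin n)) ∈ T := by
        by_contra h9
        exact h0.free w x y z ⟨h5, h6, h7, hxy, hxz, hyz, h9⟩
      have h9 : ({a, c, d} : Finset (Fin n)) ∩ B = ∅ := by
        rw [← hs]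
        ext w
        simp only [mem_inter, mem_insert, mem_singleton, Finset.notMem_empty, iff_false, not_and]
        rintro (rfl | rfl | rfl)
        · exact hx
        · exact hy
        · exact hz
      rw [h9, ← hs]
      simp [h8]
    by_cases ha : a ∈ B <;> by_cases hc : c ∈ B <;> by_cases hd : d ∈ B
    · exfalso
      apply heB
      intro w hw
      simp only [mem_insert, mem_singleton] at hw
      rcases hw with rfl | rfl | rfl
      · exact ha
      · exact hc
      · exact hd
    · exact key2 a d c had hac hcd.symm (by rw [Finset.pair_comm]) ha hd hc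
    · exact key2 a c d hac had hcd rfl ha hc hd
    · exact key1 a c d hac had hcd rfl ha hc hd
    · exact key2 c a d hac.symm hcd had (Finset.insert_comm _ _ _) hc ha hd
    · exact key1 c a d hac.symm hcd had (Finset.insert_comm _ _ _) hc ha hd
    · exact key1 d a c had.symm hcd.symm hac (by
        ext w; simp only [mem_insert, mem_singleton]; tauto) hd ha hc
    · exact key0 a c d hac had hcd rfl ha hc hd

theorem part3 : ∀ b n : ℕ, 0 < b → b ≤ n → ∃ T : Finset (Finset (Fin n)), Covering T ∧
      b * (n - b) ≤ ((pairs n).filter fun P => deg T P < b).card := by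
  intro b n hb hbn
  refine ⟨ex n b, ex_cov n b, ?_⟩
  have h1 := ex_sum hbn (fun k => if k < b then 1 else 0) (fun k => by
    split_ifs <;> norm_num) (c := 1) (fun k hk => by
    rw [if_pos (by omega)])
  rw [mul_one, ← Nat.cast_mul] at h1
  rw [card_filter]
  have h2 : ((b * (n - b) : ℕ) : ℝ) ≤ ((∑ P ∈ pairs n, if deg (ex n b) P < b then 1 else 0 : ℕ) : ℝ) := by
    refine h1.trans (le_of_eq ?_)
    push_cast
    rfl
  exact_mod_cast h2

theorem part4 : ∀ r : ℝ, 0 < r → r < 1 → ∀ ε : ℝ, 0 < ε → ∃ n₀ : ℕ, ∀ n : ℕ, n₀ ≤ n →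
      (∀ T : Finset (Finset (Fin n)), Covering T → ∑ P ∈ pairs n, r ^ deg T P ≤ (s r + ε) * n) ∧
      ∃ T : Finset (Finset (Fin n)), Covering T ∧ (s r - ε) * n ≤ ∑ P ∈ pairs n, r ^ deg T P := by
  intro r hr hr1 ε hε
  have hs : ∀ k : ℕ, (k : ℝ) * r ^ (k - 1) ≤ s r := fun k => le_ciSup (bdd hr hr1) k
  obtain ⟨n₁, h1⟩ := wt_all hr hr1 hs (ε := 2 * ε) (by positivity)
  obtain ⟨k, hk⟩ : ∃ k : ℕ, s r - ε / 2 < (k : ℝ) * r ^ (k - 1) :=
    exists_lt_of_lt_ciSup (by
      have : s r - ε / 2 < s r := by linarith
      exact this)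
  refine ⟨n₁ + k + ⌈2 * (k : ℝ) ^ 2 / ε⌉₊, fun n hn => ⟨fun T hT => ?_, ?_⟩⟩
  · have h2 := h1 (Fin n) (rel T) (rel_free hT) (rel_irr T) (by rw [Fintype.card_fin]; omega)
    rw [Fintype.card_fin] at h2
    have h3 := sum_pairs (n := n) (R := ℝ) fun P => r ^ deg T P
    have h4 : ∑ p ∈ (univ : Finset (Fin n)).offDiag, r ^ deg T {p.1, p.2} ≤
        ∑ p : Fin n × Fin n, wt (rel T) r p.1 p.2 := by
      calc ∑ p ∈ (univ : Finset (Fin n)).offDiag, r ^ deg T {p.1, p.2}
          = ∑ p ∈ (univ : Finset (Fin n)).offDiag, wt (rel T) r p.1 p.2 := by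
            refine sum_congr rfl fun p hp => ?_
            unfold wt
            rw [card_M hT.1 (mem_offDiag.1 hp).2.2, Nat.add_sub_cancel]
            rfl
        _ ≤ _ := sum_le_sum_of_subset_of_nonneg (subset_univ _) fun p _ _ =>
            wt_nonneg hr.le _ _
    rw [h3] at h4
    unfold pairs
    linarith
  · refine ⟨ex n k, ex_cov n k, ?_⟩
    have hkn : k ≤ n := by omega
    have h2 := ex_sum hkn (fun j => r ^ j) (fun j => pow_nonneg hr.le j) (c := r ^ (k - 1))
      (fun j hj => pow_le_pow_of_le_one hr.le hr1.le hj)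
    refine le_trans ?_ h2
    have hn2 : 2 * (k : ℝ) ^ 2 / ε ≤ n := by
      refine (Nat.le_ceil _).trans ?_
      have : ⌈2 * (k : ℝ) ^ 2 / ε⌉₊ ≤ n := by omega
      exact_mod_cast this
    rw [div_le_iff₀ hε] at hn2
    rw [Nat.cast_sub hkn]
    have h3 : (0 : ℝ) ≤ r ^ (k - 1) := pow_nonneg hr.le _
    have h4 : r ^ (k - 1) ≤ 1 := pow_le_one₀ hr.le hr1.le
    have h5 : (0 : ℝ) ≤ k := Nat.cast_nonneg k
    have h6 : (0 : ℝ) ≤ n := Nat.cast_nonneg n
    have h7 : (s r - ε / 2) * n ≤ (k : ℝ) * r ^ (k - 1) * n := mul_le_mul_of_nonneg_right hk.le h6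
    have h8 : (k : ℝ) * k * r ^ (k - 1) ≤ (k : ℝ) ^ 2 := by nlinarith [mul_nonneg h5 h5]
    nlinarith

/-- **Pairs contained in few triples of a Turán (3,4)-covering.**

(1) For all `b ≥ 1`, `n ≥ 100 b^3` and all 3-graphs `T` on `n` vertices in which every four vertices
contain an edge, at most `b (n - b)` pairs of vertices are contained in fewer than `b` edges.

(2) If there are exactly `b (n - b)` such pairs, there is a set `B` of `b` vertices and a set `E` of at
most `85 b^3` other vertices, such that a pair is contained in fewer than `b` edges if and only if it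
has exactly one vertex in `B`, and such that a triple `e` which does not meet `E` and is not contained
in `B` is an edge if and only if `|e ∩ B| ≠ 1`.

(3) For all `b ≤ n` there is such a 3-graph `T` in which (at least) `b (n - b)` pairs are contained in
fewer than `b` edges (`b ≥ 1`).

(4) For `0 < r < 1` the maximum over `T` of the sum of `r^(deg P)` over all pairs `P` is
`(s(r) + o(1)) n`, where `s(r)` is the maximum of `k r^(k-1)` over `k`. -/
theorem result :
    (∀ b n : ℕ, 0 < b → 100 * b ^ 3 ≤ n → ∀ T : Finset (Finset (Fin n)), Covering T →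
      ((pairs n).filter fun P => deg T P < b).card ≤ b * (n - b)) ∧
    (∀ b n : ℕ, 0 < b → 100 * b ^ 3 ≤ n → ∀ T : Finset (Finset (Fin n)), Covering T →
      ((pairs n).filter fun P => deg T P < b).card = b * (n - b) →
      ∃ B E : Finset (Fin n), B.card = b ∧ Disjoint B E ∧ E.card ≤ 85 * b ^ 3 ∧
        (∀ P ∈ pairs n, (deg T P < b ↔ (P ∩ B).card = 1)) ∧
        ∀ e : Finset (Fin n), e.card = 3 → Disjoint e E → ¬ e ⊆ B → (e ∈ T ↔ (e ∩ B).card ≠ 1)) ∧
    (∀ b n : ℕ, 0 < b → b ≤ n → ∃ T : Finset (Finset (Fin n)), Covering T ∧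
      b * (n - b) ≤ ((pairs n).filter fun P => deg T P < b).card) ∧
    (∀ r : ℝ, 0 < r → r < 1 → ∀ ε : ℝ, 0 < ε → ∃ n₀ : ℕ, ∀ n : ℕ, n₀ ≤ n →
      (∀ T : Finset (Finset (Fin n)), Covering T → ∑ P ∈ pairs n, r ^ deg T P ≤ (s r + ε) * n) ∧
      ∃ T : Finset (Finset (Fin n)), Covering T ∧ (s r - ε) * n ≤ ∑ P ∈ pairs n, r ^ deg T P) := by
  exact ⟨part1, part2, part3, part4⟩

end Pool.Agent.Results.MP_466853_co.FewTriplesOverPairs
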