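import Pool.Agent.Run7.h211.PW.Main
import Pool.Agent.Run7.h211.EY.Ful
import Pool.Agent.Run7.h211.EY.Fms
import Pool.Agent.Run7.h211.GL.Nec3

/-!
# Turán's `(3,4)`-conjecture: linear stability, exact results, and switched pairs

The 3-graphs `H` here are the complements of those of the problem: `H` has no `K_4^3` if and only if
every four vertices contain an edge of the complement of `H`.

Take Turán's construction on `k` vertices with the parts given by `c`, and change the triples through
one pair `x, y` of vertices: `x, y, z` becomes an edge if and only if `z` is in the part of `x` or of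
`y`. Call the result a member of type A if `x`, `y` are in one part, and of type B if they are in two
parts. Let `L` be a list of 3-graphs on `k` vertices (`k` is arbitrary) which are not induced in
Turán's construction. It is proved:

* linear stability near Turán's construction holds for `L` if and only if `L` has a member of type A
  and a member of type B (of any size);
* if linear stability holds for `L`, then `L` has a member of type A and a member of type B;
* if linear stability holds for `L`, then Turán's conjecture holds exactly, with the unique extremal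
  3-graphs, for all large `n` and all 3-graphs without induced members of `L`;
* linear stability holds for 33 pairs of a 3-graph `A i` of type A and a 3-graph `B j` of type B on
  six vertices. For the 18 pairs with `i ≤ 4` or `(i, j) = (6, 3)` the exact result holds for all
  `n ≥ 10 ^ 140`. (For the other 15 pairs it was known for `n ≥ 10 ^ 40`, in `SixVertexPairs`.)

So certificates (sums of squares of flags) which give linear stability give the exact result, and
they can exist only if both kinds of switched pairs are excluded.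

Proofs. Exactness: a structure with `m` copies of a vertex has induced members of `L`, but only
`O(m² n^(k-2))` of them; by the linearity of the inequality the edges at every vertex are near to those
of Turán's construction; then the local analysis. Local analysis: a pair of vertices in many wrong
triples gives many copies of a given member of type A or B, or is in few edges. Necessity: two sets of
`m` vertices in one part (or in two parts), with all pairs between them switched, give a 3-graph with
`O(m³)` missing edges at distance `c m² n` from all of Turán's constructions, and the induced members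
of `L` contain three of these `2 m` vertices.
-/

set_option autoImplicit false
set_option maxRecDepth 100000
set_option maxHeartbeats 4000000
open Finset
open scoped Classical

namespace Pool.Agent.Results.MP_466853_co.LinearStability
open Pool.Agent.TH773.Turan34 Pool.Agent.Run7.h211.GL

/-- The 3-graph `sw c x y`, where `c` is given by the list of the parts of the vertices `0, ..., 5`. -/
def gr (w : List ℕ × ℕ × ℕ) : Finset (Finset (Fin 6)) :=
  sw (fun v => Fin.ofNat 3 (w.1.getD v 0)) (Fin.ofNat 6 w.2.1) (Fin.ofNat 6 w.2.2)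

/-- Parts, `x` and `y` for nine 3-graphs of type A (`x` and `y` are in one part). -/
def dataA : List (List ℕ × ℕ × ℕ) :=
  [([0, 0, 0, 0, 0, 2], 0, 1), ([0, 0, 0, 1, 1, 1], 1, 2), ([0, 2, 2, 2, 1, 1], 4, 5),
    ([0, 1, 1, 0, 1, 1], 1, 2), ([0, 0, 0, 0, 1, 1], 2, 3), ([0, 2, 2, 2, 2, 1], 1, 2),
    ([0, 2, 1, 1, 0, 0], 4, 5), ([0, 2, 2, 2, 0, 0], 0, 4), ([0, 1, 2, 2, 0, 0], 4, 5)]

/-- Parts, `x` and `y` for ten 3-graphs of type B (`y` is in the part after that of `x`). -/
def dataB : List (List ℕ × ℕ × ℕ) :=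
  [([0, 2, 2, 2, 2, 1], 0, 5), ([0, 0, 1, 1, 1, 1], 0, 2), ([0, 2, 2, 2, 1, 2], 5, 0),
    ([0, 0, 0, 1, 1, 1], 0, 3), ([0, 2, 1, 1, 1, 0], 1, 5), ([0, 0, 2, 2, 2, 1], 1, 5),
    ([0, 1, 1, 2, 2, 2], 5, 0), ([0, 0, 2, 2, 1, 2], 5, 1), ([0, 1, 1, 1, 2, 2], 0, 3),
    ([0, 2, 1, 1, 2, 0], 4, 5)]

/-- Nine 3-graphs of type A. -/
def A (i : Fin 9) : Finset (Finset (Fin 6)) := gr (dataA.getD i ([], 0, 0))

/-- Ten 3-graphs of type B. -/
def B (j : Fin 10) : Finset (Finset (Fin 6)) := gr (dataB.getD j ([], 0, 0))

/-- The indices `j` of the partners of `A 0`, ..., `A 8`. -/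
def partners : List (List ℕ) :=
  [[6, 7, 9], [2, 6, 7, 9], [7, 9], [6, 7, 9], [5, 6, 7, 8, 9], [6, 7, 9], [3, 4, 5, 6, 7, 8, 9],
    [7, 9], [6, 7, 8, 9]]

/-- `(A i, B j)` is one of the 33 pairs. -/
def Pair (i : Fin 9) (j : Fin 10) : Prop := (j : ℕ) ∈ partners.getD i []

instance (i : Fin 9) (j : Fin 10) : Decidable (Pair i j) := by unfold Pair; infer_instance

/-- One of the 18 new pairs. -/
def New (i : Fin 9) (j : Fin 10) : Prop := Pair i j ∧ (i ≤ 4 ∨ (i = 6 ∧ j = 3))

instance (i : Fin 9) (j : Fin 10) : Decidable (New i j) := by unfold New; infer_instance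

/-- the masks of the first kind -/
def mA (i : Fin 9) : ℕ := [19, 3127, 11447, 12486, 32252, 77054, 96747, 119623, 120663].getD i 0

/-- the masks of the second kind -/
def mB (j : Fin 10) : ℕ :=
  [183, 3127, 11447, 15614, 77147, 77292, 78078, 97788, 122742, 228027].getD j 0

theorem msk_A (i : Fin 9) : Pool.Agent.TH773.FA.Msk (mA i) (A i) := by
  fin_cases i <;> (unfold Pool.Agent.TH773.FA.Msk; decide +kernel)

theorem msk_B (j : Fin 10) : Pool.Agent.TH773.FA.Msk (mB j) (B j) := by
  fin_cases j <;> (unfold Pool.Agent.TH773.FA.Msk; decide +kernel)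

theorem nocol_A (i : Fin 9) : Pool.Agent.Y878.EX.nocol (mA i) = true := by
  fin_cases i <;> decide +kernel

theorem nocol_B (j : Fin 10) : Pool.Agent.Y878.EX.nocol (mB j) = true := by
  fin_cases j <;> decide +kernel

theorem pairs_prs : ∀ i j, Pair i j → (mA i, mB j) ∈ Pool.Agent.Run7.h211.PW.prs := by decide

theorem linear_pair (i : Fin 9) (j : Fin 10) (hp : Pair i j) : Linear [A i, B j] := by
  refine ⟨5806080000, 54 * 418424832000, ?_⟩
  intro n H hH hK
  obtain ⟨g, hg⟩ := Pool.Agent.Run7.h211.PW.main_ineq H hH hK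
  refine ⟨g, ?_⟩
  have h := hg _ (pairs_prs i j hp) [A i, B j] (by
    intro m hm
    simp only [List.mem_cons, List.not_mem_nil, or_false] at hm
    rcases hm with rfl | rfl
    · exact ⟨A i, by simp, msk_A i⟩
    · exact ⟨B j, by simp, msk_B j⟩)
  have h1 := Nat.mul_le_mul_left (54 * n ^ 3) h
  have h2 : 54 * n ^ 3 * (8717184000 * n ^ 5) ≤ 54 * 418424832000 * n ^ 8 := by
    have e : 54 * n ^ 3 * (8717184000 * n ^ 5) = 54 * 8717184000 * n ^ 8 := by ring
    rw [e]
    exact Nat.mul_le_mul_right _ (by norm_num)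
  generalize (symmDiff H (turan g)).card = X at h1 ⊢
  generalize H.card = Y at h1 ⊢
  generalize copies [A i, B j] H = Z at h1 ⊢
  calc 54 * (n ^ 6 * X) + 54 * (5806080000 * (n ^ 6 * Y)) =
        54 * n ^ 3 * (n ^ 3 * X + 5806080000 * (n ^ 3 * Y)) := by ring
    _ ≤ 54 * n ^ 3 * (537600000 * n ^ 6 + 418424832000 * Z + 8717184000 * n ^ 5) := h1
    _ = 5 * (5806080000 * n ^ (6 + 3)) + 54 * 418424832000 * (n ^ 3 * Z) +
        54 * n ^ 3 * (8717184000 * n ^ 5) := by ring
    _ ≤ 5 * (5806080000 * n ^ (6 + 3)) + 54 * 418424832000 * (n ^ 3 * Z) +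
        54 * 418424832000 * n ^ 8 := Nat.add_le_add_left h2 _
    _ = 5 * (5806080000 * n ^ (6 + 3)) + 54 * 418424832000 * (n ^ 3 * Z + n ^ (6 + 2)) := by ring

/-- a 3-graph whose mask has no colouring is not Turán's construction -/
theorem not_turan {m : ℕ} {F : Finset (Finset (Fin 6))} (hm : Pool.Agent.TH773.FA.Msk m F)
    (hn : Pool.Agent.Y878.EX.nocol m = true) (c : Fin 6 → Fin 3) :
    ∃ t : Finset (Fin 6), t.card = 3 ∧ ¬ (t ∈ F ↔ t ∈ turan c) := by
  by_contra hno
  push Not at hno
  have h1 := Pool.Agent.Run7.h211.EY.turan_none' hm hn c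
  unfold copies at h1
  rw [card_eq_zero, filter_eq_empty_iff] at h1
  refine h1 (mem_univ univ) ⟨F, by simp, id, Function.injective_id, by simp, ?_⟩
  intro t ht
  rw [image_id]
  exact (hno t ht).symm

theorem notTuran_pair (i : Fin 9) (j : Fin 10) : NotTuran [A i, B j] := by
  intro F hF c
  simp only [List.mem_cons, List.not_mem_nil, or_false] at hF
  rcases hF with rfl | rfl
  · exact not_turan (msk_A i) (nocol_A i) c
  · exact not_turan (msk_B j) (nocol_B j) c

theorem exists_fm (i : Fin 9) (j : Fin 10) (h : New i j) :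
    ∃ k : Pool.Agent.Run7.h211.EY.Fm, k.s.m = mA i ∧ k.c.m = mB j := by
  fin_cases i <;> fin_cases j <;> first
    | exact absurd h (by decide)
    | exact ⟨Pool.Agent.Run7.h211.EY.f06, rfl, rfl⟩
    | exact ⟨Pool.Agent.Run7.h211.EY.f07, rfl, rfl⟩
    | exact ⟨Pool.Agent.Run7.h211.EY.f09, rfl, rfl⟩
    | exact ⟨Pool.Agent.Run7.h211.EY.f12, rfl, rfl⟩
    | exact ⟨Pool.Agent.Run7.h211.EY.f16, rfl, rfl⟩
    | exact ⟨Pool.Agent.Run7.h211.EY.f17, rfl, rfl⟩
    | exact ⟨Pool.Agent.Run7.h211.EY.f19, rfl, rfl⟩
    | exact ⟨Pool.Agent.Run7.h211.EY.f27, rfl, rfl⟩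
    | exact ⟨Pool.Agent.Run7.h211.EY.f29, rfl, rfl⟩
    | exact ⟨Pool.Agent.Run7.h211.EY.f36, rfl, rfl⟩
    | exact ⟨Pool.Agent.Run7.h211.EY.f37, rfl, rfl⟩
    | exact ⟨Pool.Agent.Run7.h211.EY.f39, rfl, rfl⟩
    | exact ⟨Pool.Agent.Run7.h211.EY.f45, rfl, rfl⟩
    | exact ⟨Pool.Agent.Run7.h211.EY.f46, rfl, rfl⟩
    | exact ⟨Pool.Agent.Run7.h211.EY.f47, rfl, rfl⟩
    | exact ⟨Pool.Agent.Run7.h211.EY.f48, rfl, rfl⟩
    | exact ⟨Pool.Agent.Run7.h211.EY.f49, rfl, rfl⟩
    | exact ⟨Pool.Agent.Run7.h211.EY.f63, rfl, rfl⟩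

theorem exact_new (i : Fin 9) (j : Fin 10) (h : New i j) : Exact [A i, B j] (10 ^ 140) := by
  obtain ⟨k, h1, h2⟩ := exists_fm i j h
  refine exact_form (by norm_num) fun n hn H hH hK hc => ?_
  exact Pool.Agent.Run7.h211.EY.exact_H' (i := k)
    ⟨by rw [h1]; exact msk_A i, by rw [h2]; exact msk_B j⟩ hn hH hK hc

/-- (1) For every list `L` of 3-graphs on `k` vertices which are not induced in Turán's construction:
linear stability near Turán's construction holds if and only if `L` has members of both types, and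
linear stability implies this and the exact result for large `n`. (2) Linear stability holds for the
33 pairs, and the exact result for the 18 new pairs and `n ≥ 10 ^ 140`. -/
theorem result :
    (∀ (k : ℕ) (L : List (Finset (Finset (Fin k)))), NotTuran L →
      (Local L ↔ HasA L ∧ HasB L) ∧ (Linear L → HasA L ∧ HasB L ∧ ∃ N, Exact L N)) ∧
    (∀ i j, Pair i j → NotTuran [A i, B j] ∧ Linear [A i, B j]) ∧
    (∀ i j, New i j → Exact [A i, B j] (10 ^ 140)) := by
  refine ⟨fun k L hL => ⟨⟨fun h => nec_local hL h, fun h => local_H h.1 h.2⟩, fun h => ?_⟩,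
    fun i j h => ⟨notTuran_pair i j, linear_pair i j h⟩, exact_new⟩
  obtain ⟨hA, hB⟩ := nec_linear hL h
  exact ⟨hA, hB, exact_of_linear h hA hB⟩

end Pool.Agent.Results.MP_466853_co.LinearStability
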